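import Pool.Agent.H15.G.R_seed8.TH176.Nag.Flat
import Pool.Agent.H15.G.R_seed8.TH819.NagA

/-!
# Uniform SHGH for 13 points, STEP 3: definitions

Laurent polynomials in `z`, `Y` are `f : (ℤ × ℤ) →₀ K`, `f (c, b)` the coefficient of `z ^ c * Y ^ b`.
-/

namespace Pool.Agent.TH978.S13

open Finset Pool.Agent.TH176.Nag

variable {K : Type*} [Field K]

/-- the descending product `b (b - 1) ⋯ (b - l + 1)` -/
def dsc (l : ℕ) (b : K) : K := ∏ t ∈ range l, (b - (t : K))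

/-- the functional `Q` on the column `c` -/
noncomputable def tau (f : (ℤ × ℤ) →₀ K) (c : ℤ) (Q : K → K) : K :=
  f.sum fun p a => if p.1 = c then a * Q (p.2 : K) else 0

/-- the operator `(Y - 1) ∂_Y - α - β z ∂_z` -/
noncomputable def opr (α β : K) (f : (ℤ × ℤ) →₀ K) : (ℤ × ℤ) →₀ K :=
  f.sum fun p a => Finsupp.single p (a * ((p.2 : K) - α - β * (p.1 : K))) -
    Finsupp.single (p.1, p.2 - 1) (a * (p.2 : K))

/-- the flattened block with its apex -/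
def Blk (K D : ℝ) : Set (ℤ × ℤ) :=
  {p | 1 ≤ p.1 ∧ 0 ≤ p.2 ∧ (p.1 : ℝ) + (K + 1) * p.2 ≤ D} ∪ {(0, 0)}

/-- the same block in the coordinates `c = i - j`, `b = i - 1` -/
def BlkB (K D : ℝ) : Set (ℤ × ℤ) :=
  {p | 0 ≤ p.2 ∧ 0 ≤ p.2 - p.1 + 1 ∧ (p.1 : ℝ) + (K + 2) * (p.2 - p.1 + 1) ≤ D} ∪ {(0, -1)}

end Pool.Agent.TH978.S13
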